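import Pool.Agent.H961R2.Lev.Stubs

/-! Task C4 of project LEV (helper933): potentials for difference constraints. -/

namespace H961Lev.C4

/-- signed indicator -/
def ee (t s : ℤ) : ℤ := (if 0 ≤ s ∧ s < t then 1 else 0) - (if t ≤ s ∧ s < 0 then 1 else 0)

lemma ee_zero (s : ℤ) : ee 0 s = 0 := by
  unfold ee
  have h1 : ¬ (0 ≤ s ∧ s < 0) := by omega
  simp [h1]

lemma ee_succ (t s : ℤ) : ee (t + 1) s = ee t s + if s = t then 1 else 0 := by
  unfold ee
  split_ifs <;> omega

lemma ee_add (t s : ℤ) (N : ℕ) : ee (t + N) s = ee t s + if t ≤ s ∧ s < t + N then 1 else 0 := by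
  unfold ee
  split_ifs <;> omega

lemma ee_big (t s : ℤ) (h : |t| < |s|) : ee t s = 0 := by
  unfold ee
  rcases abs_cases t with ⟨h1, h2⟩ | ⟨h1, h2⟩ <;> rcases abs_cases s with ⟨h3, h4⟩ | ⟨h3, h4⟩ <;>
    split_ifs <;> omega

/-- window sum -/
def DD (N : ℕ) (p : ℤ → ℤ) (s : ℤ) : ℤ := ∑ k ∈ Finset.range N, p (s - k)

lemma DD_single (N : ℕ) (p : ℤ →₀ ℤ) (t s : ℤ) :
    DD N ((p + Finsupp.single t 1 : ℤ →₀ ℤ) : ℤ → ℤ) s = DD N p s + if t ≤ s ∧ s < t + N then 1 else 0 := by
  unfold DD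
  simp only [Finsupp.coe_add, Pi.add_apply, Finset.sum_add_distrib]
  congr 1
  by_cases h : t ≤ s ∧ s < t + N
  · rw [if_pos h, Finset.sum_eq_single (s - t).toNat]
    · have : s - ((s - t).toNat : ℤ) = t := by omega
      rw [this]; simp
    · intro k _ hk
      apply Finsupp.single_eq_of_ne
      omega
    · intro hk
      exfalso
      apply hk
      rw [Finset.mem_range]
      omega
  · rw [if_neg h]
    apply Finset.sum_eq_zero
    intro k hk
    rw [Finset.mem_range] at hk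
    apply Finsupp.single_eq_of_ne
    omega

def ph (cap cup : ℤ → ℝ) (s d : ℤ) : ℝ := max (d : ℝ) 0 * cup s - max (-(d : ℝ)) 0 * cap s

lemma ph_succ (cap cup : ℤ → ℝ) (s d : ℤ) :
    ph cap cup s (d + 1) - ph cap cup s d = cup s ∨ ph cap cup s (d + 1) - ph cap cup s d = cap s := by
  unfold ph
  rcases le_or_gt 0 d with h | h
  · left
    have h1 : (0 : ℝ) ≤ d := by exact_mod_cast h
    rw [max_eq_left h1, max_eq_right (by linarith : -(d : ℝ) ≤ 0),
      max_eq_left (by push_cast; linarith : (0 : ℝ) ≤ ((d + 1 : ℤ) : ℝ)),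
      max_eq_right (by push_cast; linarith : -((d + 1 : ℤ) : ℝ) ≤ 0)]
    push_cast
    ring
  · right
    have h1 : ((d : ℤ) : ℝ) + 1 ≤ 0 := by exact_mod_cast h
    rw [max_eq_right (by linarith : (d : ℝ) ≤ 0), max_eq_left (by linarith : 0 ≤ -(d : ℝ)),
      max_eq_right (by push_cast; linarith : ((d + 1 : ℤ) : ℝ) ≤ 0),
      max_eq_left (by push_cast; linarith : (0 : ℝ) ≤ -((d + 1 : ℤ) : ℝ))]
    push_cast
    ring

lemma ph_zero (cap cup : ℤ → ℝ) (s : ℤ) : ph cap cup s 0 = 0 := by simp [ph]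

/-- summand of the cost -/
def gg (N : ℕ) (cap cup Lo Hi : ℤ → ℝ) (t : ℤ) (p : ℤ →₀ ℤ) (s : ℤ) : ℝ :=
  ph cap cup s (ee t s - DD N p s) + ph Lo Hi s (p s)

lemma bd (p : ℤ →₀ ℤ) : ∃ K : ℤ, 0 ≤ K ∧ ∀ s, K < |s| → p s = 0 := by
  refine ⟨(p.support.sup Int.natAbs : ℕ), by positivity, fun s hs => ?_⟩
  by_contra h
  have h1 : s ∈ p.support := Finsupp.mem_support_iff.2 h
  have h2 : s.natAbs ≤ p.support.sup Int.natAbs := Finset.le_sup (f := Int.natAbs) h1
  rw [Int.abs_eq_natAbs] at hs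
  omega

lemma DD_big (N : ℕ) (p : ℤ →₀ ℤ) (K : ℤ) (hK : ∀ s, K < |s| → p s = 0) (s : ℤ) (hs : K + N < |s|) :
    DD N p s = 0 := by
  unfold DD
  apply Finset.sum_eq_zero
  intro k hk
  rw [Finset.mem_range] at hk
  apply hK
  rcases abs_cases (s - k : ℤ) with ⟨h1, h2⟩ | ⟨h1, h2⟩ <;>
    rcases abs_cases s with ⟨h3, h4⟩ | ⟨h3, h4⟩ <;> omega

lemma gg_supp (N : ℕ) (cap cup Lo Hi : ℤ → ℝ) (t : ℤ) (p : ℤ →₀ ℤ) :
    (Function.support (gg N cap cup Lo Hi t p)).Finite := by
  obtain ⟨K, hK0, hK⟩ := bd p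
  apply (Set.finite_Icc (-(K + N + |t|)) (K + N + |t|)).subset
  intro s hs
  by_contra h
  apply hs
  have hs' : K + N + |t| < |s| := by
    rw [Set.mem_Icc] at h
    rcases abs_cases s with ⟨h3, h4⟩ | ⟨h3, h4⟩ <;> omega
  have ht := abs_nonneg t
  have h1 : ee t s = 0 := ee_big t s (by omega)
  have h2 : DD N p s = 0 := DD_big N p K hK s (by omega)
  have h3 : p s = 0 := hK s (by omega)
  unfold gg
  rw [h1, h2, h3]
  simp [ph_zero]

noncomputable def cost (N : ℕ) (cap cup Lo Hi : ℤ → ℝ) (t : ℤ) (p : ℤ →₀ ℤ) : ℝ :=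
  ∑ᶠ s, gg N cap cup Lo Hi t p s

lemma finsum_diff {f g : ℤ → ℝ} (hf : (Function.support f).Finite) (hg : (Function.support g).Finite)
    (t : ℤ) (h : ∀ s, s ≠ t → f s = g s) : ∑ᶠ s, f s - ∑ᶠ s, g s = f t - g t := by
  rw [← finsum_sub_distrib hf hg]
  apply finsum_eq_single
  intro s hs
  rw [h s hs, sub_self]

lemma cost_succ (N : ℕ) (cap cup Lo Hi : ℤ → ℝ) (h : ∀ t, cap t ≤ cup t) (t : ℤ) (p : ℤ →₀ ℤ) :
    cost N cap cup Lo Hi t p + cap t ≤ cost N cap cup Lo Hi (t + 1) p ∧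
    cost N cap cup Lo Hi (t + 1) p ≤ cost N cap cup Lo Hi t p + cup t := by
  have h1 : cost N cap cup Lo Hi (t + 1) p - cost N cap cup Lo Hi t p =
      gg N cap cup Lo Hi (t + 1) p t - gg N cap cup Lo Hi t p t := by
    apply finsum_diff (gg_supp _ _ _ _ _ _ _) (gg_supp _ _ _ _ _ _ _)
    intro s hs
    unfold gg
    rw [ee_succ, if_neg hs, add_zero]
  have h2 : gg N cap cup Lo Hi (t + 1) p t - gg N cap cup Lo Hi t p t =
      ph cap cup t ((ee t t - DD N p t) + 1) - ph cap cup t (ee t t - DD N p t) := by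
    unfold gg
    rw [ee_succ, if_pos rfl]
    have : ee t t + 1 - DD N (⇑p) t = ee t t - DD N (⇑p) t + 1 := by ring
    rw [this]
    ring
  rw [h2] at h1
  have h3 := h t
  rcases ph_succ cap cup t (ee t t - DD N p t) with h4 | h4 <;> rw [h4] at h1 <;>
    constructor <;> linarith

lemma cost_add (N : ℕ) (cap cup Lo Hi : ℤ → ℝ) (h : ∀ t, Lo t ≤ Hi t) (t : ℤ) (p : ℤ →₀ ℤ) :
    cost N cap cup Lo Hi t p + Lo t ≤ cost N cap cup Lo Hi (t + N) (p + Finsupp.single t 1) ∧
    cost N cap cup Lo Hi (t + N) (p + Finsupp.single t 1) ≤ cost N cap cup Lo Hi t p + Hi t := by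
  have e : ∀ s, ee (t + N) s - DD N ((p + Finsupp.single t 1 : ℤ →₀ ℤ) : ℤ → ℤ) s = ee t s - DD N p s := by
    intro s
    rw [DD_single, ee_add]
    ring
  have h1 : cost N cap cup Lo Hi (t + N) (p + Finsupp.single t 1) - cost N cap cup Lo Hi t p =
      gg N cap cup Lo Hi (t + N) (p + Finsupp.single t 1) t - gg N cap cup Lo Hi t p t := by
    apply finsum_diff (gg_supp _ _ _ _ _ _ _) (gg_supp _ _ _ _ _ _ _)
    intro s hs
    unfold gg
    rw [e s]
    simp [Finsupp.single_eq_of_ne hs]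
  have h2 : gg N cap cup Lo Hi (t + N) (p + Finsupp.single t 1) t - gg N cap cup Lo Hi t p t =
      ph Lo Hi t (p t + 1) - ph Lo Hi t (p t) := by
    unfold gg
    rw [e t]
    simp
  rw [h2] at h1
  have h3 := h t
  rcases ph_succ Lo Hi t (p t) with h4 | h4 <;> rw [h4] at h1 <;>
    constructor <;> linarith

theorem T_C4 : S_C4 := by
  intro N cap cup Lo Hi hc hyp
  set cst := cost N cap cup Lo Hi with hcst
  have hs := cost_succ N cap cup Lo Hi (fun t => (hc t).2.1)
  have ha := cost_add N cap cup Lo Hi (fun t => (hc t).2.2.2)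
  -- nonnegativity at 0
  have h0 : ∀ p, 0 ≤ cst 0 p := by
    intro p
    obtain ⟨K, hK0, hK⟩ := bd p
    have h1 := hyp p K (K + N) hK0 hK le_rfl
    have h2 : cst 0 p = ∑ t ∈ Finset.Icc (-(K + N : ℤ)) (K + N),
      (max (-(∑ k ∈ Finset.range N, (p (t - k) : ℝ))) 0 * cup t
        - max (∑ k ∈ Finset.range N, (p (t - k) : ℝ)) 0 * cap t
        + max (p t : ℝ) 0 * Hi t - max (-(p t : ℝ)) 0 * Lo t) := by
      rw [hcst]
      unfold cost
      rw [finsum_eq_sum_of_support_subset (s := Finset.Icc (-(K + N : ℤ)) (K + N))]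
      · apply Finset.sum_congr rfl
        intro t _
        unfold gg ph
        rw [ee_zero]
        unfold DD
        push_cast
        simp only [zero_sub, neg_neg]
        ring
      · intro s hs
        by_contra h
        apply hs
        have hs' : K + N < |s| := by
          rw [Finset.coe_Icc, Set.mem_Icc] at h
          rcases abs_cases s with ⟨h3, h4⟩ | ⟨h3, h4⟩ <;> omega
        have h2 : DD N p s = 0 := DD_big N p K hK s hs'
        have h3 : p s = 0 := hK s (by omega)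
        unfold gg
        rw [ee_zero, h2, h3]
        simp [ph_zero]
    rw [h2]
    exact h1
  have hlow : ∀ t : ℤ, ∃ c : ℝ, ∀ p, c ≤ cst t p := by
    intro t
    induction t using Int.induction_on with
    | zero => exact ⟨0, h0⟩
    | succ i ih =>
      obtain ⟨c, hcc⟩ := ih
      refine ⟨c, fun p => ?_⟩
      have := (hs i p).1
      have := hcc p
      have := (hc i).1
      linarith
    | pred i ih =>
      obtain ⟨c, hcc⟩ := ih
      refine ⟨c - 1, fun p => ?_⟩
      have h1 := (hs (-(i : ℤ) - 1) p).2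
      rw [sub_add_cancel] at h1
      have := hcc p
      have := (hc (-(i : ℤ) - 1)).2.2.1
      linarith
  have hbdd : ∀ t : ℤ, BddBelow (Set.range (cst t)) := by
    intro t
    obtain ⟨c, hcc⟩ := hlow t
    exact ⟨c, by rintro _ ⟨p, rfl⟩; exact hcc p⟩
  set β : ℤ → ℝ := fun t => ⨅ p, cst t p with hβ
  have hle : ∀ t p, β t ≤ cst t p := fun t p => ciInf_le (hbdd t) p
  have b1 : ∀ t, cap t ≤ β (t + 1) - β t := by
    intro t
    have : β t + cap t ≤ β (t + 1) := by
      apply le_ciInf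
      intro p
      have := (hs t p).1
      have := hle t p
      linarith
    linarith
  have b2 : ∀ t, β (t + 1) - β t ≤ cup t := by
    intro t
    have : β (t + 1) - cup t ≤ β t := by
      apply le_ciInf
      intro p
      have := (hs t p).2
      have := hle (t + 1) p
      linarith
    linarith
  have b3 : ∀ t : ℤ, Lo t ≤ β (t + N) - β t := by
    intro t
    have : β t + Lo t ≤ β (t + N) := by
      apply le_ciInf
      intro q
      have h1 := (ha t (q - Finsupp.single t 1)).1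
      rw [sub_add_cancel] at h1
      have := hle t (q - Finsupp.single t 1)
      linarith
    linarith
  have b4 : ∀ t : ℤ, β (t + N) - β t ≤ Hi t := by
    intro t
    have : β (t + N) - Hi t ≤ β t := by
      apply le_ciInf
      intro p
      have := (ha t p).2
      have := hle (t + N) (p + Finsupp.single t 1)
      linarith
    linarith
  refine ⟨fun t => β (t + 1) - β t, fun t => ⟨b1 t, b2 t, ?_⟩⟩
  have hsum : ∑ k ∈ Finset.range N, (β (t + k + 1) - β (t + k)) = β (t + N) - β t := by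
    have := Finset.sum_range_sub (fun k : ℕ => β (t + k)) N
    simp only [Nat.cast_zero, add_zero] at this
    rw [← this]
    apply Finset.sum_congr rfl
    intro k _
    push_cast
    rw [add_assoc]
  rw [hsum]
  exact ⟨b3 t, b4 t⟩

end H961Lev.C4
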